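import Pool.Agent.H47.SD.Ops
import Pool.Agent.H36.SC.Contact
import Pool.Agent.H68.SC.JHigh
import Pool.Agent.H23.SB.Mon

/-!
# MP_f4af34 (Schiffer in R^3), block DICTIONARY: extension of the modes below `R0`

`Modes R0 ρ ν y z f1 f2` : mode functions on the layer `[R0, ρ]` with
`z' = - y - f1`, `y' = - 2 y / s + (1 - k (k + 1) / s ^ 2) z + f2`, `f1 = f2 = 0` at `R0`, matched at
`R0` with a multiple `cf k` of the regular solution `jl k`. The extended functions `ez, ey` solve the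
same equations on `(0, ρ]` with the sources extended by `0`, and they are dominated on `[s0, ρ]`.
-/

set_option autoImplicit false
open Filter Topology Set

namespace SD

open Pool.Agent.H68.SC Pool.Agent.H36.SC

/-- mode functions on the layer, matched with regular solutions at `R0` -/
structure Modes (R0 ρ ν : ℝ) (y z f1 f2 : ℕ → ℝ → ℝ) : Prop where
  pos : 0 < R0
  lt : R0 < ρ
  nu : 1 < ν
  dz : ∀ k, ∀ s ∈ Icc R0 ρ, HasDerivWithinAt (z k) (-y k s - f1 k s) (Icc R0 ρ) s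
  dy : ∀ k, ∀ s ∈ Icc R0 ρ, HasDerivWithinAt (y k)
    (-2 * y k s / s + (1 - (k : ℝ) * ((k : ℝ) + 1) / s ^ 2) * z k s + f2 k s) (Icc R0 ρ) s
  c1 : ∀ k, ContinuousOn (f1 k) (Icc R0 ρ)
  c2 : ∀ k, ContinuousOn (f2 k) (Icc R0 ρ)
  f1R : ∀ k, f1 k R0 = 0
  f2R : ∀ k, f2 k R0 = 0
  wr : ∀ k, y k R0 * jl k R0 + z k R0 * djl k R0 = 0
  by' : Dom y (Icc R0 ρ) ν 0
  bz : Dom z (Icc R0 ρ) ν 0
  b1 : Dom f1 (Icc R0 ρ) ν 0
  b2 : Dom f2 (Icc R0 ρ) ν 0

/-- the coefficient of the regular solution -/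
noncomputable def cf (y z : ℕ → ℝ → ℝ) (R0 : ℝ) (k : ℕ) : ℝ := by
  classical
  exact if jl k R0 = 0 then -(y k R0 / djl k R0) else z k R0 / jl k R0

noncomputable def ez (y z : ℕ → ℝ → ℝ) (R0 : ℝ) (k : ℕ) (s : ℝ) : ℝ :=
  if s ≤ R0 then cf y z R0 k * jl k s else z k s

noncomputable def ey (y z : ℕ → ℝ → ℝ) (R0 : ℝ) (k : ℕ) (s : ℝ) : ℝ :=
  if s ≤ R0 then -(cf y z R0 k * djl k s) else y k s

noncomputable def e0 (f : ℕ → ℝ → ℝ) (R0 : ℝ) (k : ℕ) (s : ℝ) : ℝ :=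
  if s ≤ R0 then 0 else f k s

section

variable {R0 ρ ν : ℝ} {y z f1 f2 : ℕ → ℝ → ℝ}

theorem Modes.z_R0 (M : Modes R0 ρ ν y z f1 f2) (k : ℕ) : z k R0 = cf y z R0 k * jl k R0 := by
  unfold cf
  have h := M.wr k
  split_ifs with h0
  · rw [h0, mul_zero, zero_add] at h
    rw [h0, mul_zero]
    exact (mul_eq_zero.1 h).resolve_right (djl_ne k M.pos h0)
  · rw [div_mul_cancel₀ _ h0]

theorem Modes.y_R0 (M : Modes R0 ρ ν y z f1 f2) (k : ℕ) : y k R0 = -(cf y z R0 k * djl k R0) := by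
  unfold cf
  have h := M.wr k
  split_ifs with h0
  · have h1 := djl_ne k M.pos h0
    field_simp
  · field_simp
    linear_combination h

theorem e0_eq (hf : ∀ k, f1 k R0 = 0) (k : ℕ) {s : ℝ} (hs : R0 ≤ s) : e0 f1 R0 k s = f1 k s := by
  unfold e0
  split_ifs with h
  · rw [le_antisymm h hs, hf]
  · rfl

theorem Modes.ez_eq (M : Modes R0 ρ ν y z f1 f2) (k : ℕ) {s : ℝ} (hs : R0 ≤ s) :
    ez y z R0 k s = z k s := by
  unfold ez
  split_ifs with h
  · rw [le_antisymm h hs, ← M.z_R0]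
  · rfl

theorem Modes.ey_eq (M : Modes R0 ρ ν y z f1 f2) (k : ℕ) {s : ℝ} (hs : R0 ≤ s) :
    ey y z R0 k s = y k s := by
  unfold ey
  split_ifs with h
  · rw [le_antisymm h hs, ← M.y_R0]
  · rfl

/-- two solutions on the two sides of a point -/
theorem glue_hasDerivAt {f g h : ℝ → ℝ} {a : ℝ} (hlt : R0 < ρ) (hf : HasDerivAt f a R0)
    (hg : HasDerivWithinAt g a (Icc R0 ρ) R0) (h1 : ∀ s ≤ R0, h s = f s)
    (h2 : ∀ s, R0 ≤ s → h s = g s) : HasDerivAt h a R0 := by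
  have e1 : HasDerivWithinAt h a (Iic R0) R0 :=
    hf.hasDerivWithinAt.congr (fun s hs => h1 s hs) (h1 R0 le_rfl)
  have e2 : HasDerivWithinAt h a (Icc R0 ρ) R0 :=
    hg.congr (fun s hs => h2 s hs.1) (h2 R0 le_rfl)
  have e3 := e1.union e2
  refine e3.hasDerivAt ?_
  have e4 : Iio ρ ⊆ Iic R0 ∪ Icc R0 ρ := by
    intro s hs
    rcases le_total s R0 with h | h
    · exact Or.inl h
    · exact Or.inr ⟨h, hs.le⟩
  exact mem_of_superset (Iio_mem_nhds hlt) e4

theorem Modes.ez_deriv (M : Modes R0 ρ ν y z f1 f2) (k : ℕ) {s : ℝ} (hs : s ∈ Ioo 0 ρ) :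
    HasDerivAt (ez y z R0 k) (-ey y z R0 k s - e0 f1 R0 k s) s := by
  rcases lt_trichotomy s R0 with h | rfl | h
  · have e1 : HasDerivAt (fun s => cf y z R0 k * jl k s) (cf y z R0 k * djl k s) s :=
      (jl_deriv k hs.1).const_mul _
    have e2 : -ey y z R0 k s - e0 f1 R0 k s = cf y z R0 k * djl k s := by
      unfold ey e0
      rw [if_pos h.le, if_pos h.le]
      ring
    rw [e2]
    refine e1.congr_of_eventuallyEq ?_
    filter_upwards [Iio_mem_nhds h] with t ht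
    unfold ez
    rw [if_pos (le_of_lt ht)]
  · have e1 : HasDerivAt (fun t => cf y z s k * jl k t) (cf y z s k * djl k s) s :=
      (jl_deriv k hs.1).const_mul _
    have e2 : -ey y z s k s - e0 f1 s k s = cf y z s k * djl k s := by
      unfold ey e0
      rw [if_pos le_rfl, if_pos le_rfl]
      ring
    have e3 := M.dz k s ⟨le_rfl, M.lt.le⟩
    rw [M.f1R, M.y_R0, neg_neg, sub_zero] at e3
    rw [e2]
    refine glue_hasDerivAt M.lt e1 e3 (fun t ht => ?_) (fun t ht => M.ez_eq k ht)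
    unfold ez
    rw [if_pos ht]
  · have e1 : HasDerivAt (z k) (-y k s - f1 k s) s :=
      (M.dz k s ⟨h.le, hs.2.le⟩).hasDerivAt (Icc_mem_nhds h hs.2)
    rw [M.ey_eq k h.le, e0_eq M.f1R k h.le]
    refine e1.congr_of_eventuallyEq ?_
    filter_upwards [Ioi_mem_nhds h] with t ht
    exact M.ez_eq k (le_of_lt ht)

/-- the right hand side of the second equation -/
noncomputable def rhs (y z f2 : ℕ → ℝ → ℝ) (k : ℕ) (s : ℝ) : ℝ :=
  -2 * y k s / s + (1 - (k : ℝ) * ((k : ℝ) + 1) / s ^ 2) * z k s + f2 k s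

theorem Modes.ey_deriv (M : Modes R0 ρ ν y z f1 f2) (k : ℕ) {s : ℝ} (hs : s ∈ Ioo 0 ρ) :
    HasDerivAt (ey y z R0 k) (rhs (ey y z R0) (ez y z R0) (e0 f2 R0) k s) s := by
  have hs0 : s ≠ 0 := hs.1.ne'
  have e1 : HasDerivAt (fun t => -(cf y z R0 k * djl k t))
      (-(cf y z R0 k * (((k : ℝ) * (k + 1) / s ^ 2 - 1) * jl k s - 2 / s * djl k s))) s :=
    ((Pool.Agent.H23.SB.djl_deriv k hs.1).const_mul _).neg
  rcases lt_trichotomy s R0 with h | rfl | h
  · have e2 : rhs (ey y z R0) (ez y z R0) (e0 f2 R0) k s =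
        -(cf y z R0 k * (((k : ℝ) * (k + 1) / s ^ 2 - 1) * jl k s - 2 / s * djl k s)) := by
      unfold rhs ey ez e0
      rw [if_pos h.le, if_pos h.le, if_pos h.le]
      field_simp
      ring
    rw [e2]
    refine e1.congr_of_eventuallyEq ?_
    filter_upwards [Iio_mem_nhds h] with t ht
    unfold ey
    rw [if_pos (le_of_lt ht)]
  · have e2 : rhs (ey y z s) (ez y z s) (e0 f2 s) k s =
        -(cf y z s k * (((k : ℝ) * (k + 1) / s ^ 2 - 1) * jl k s - 2 / s * djl k s)) := by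
      unfold rhs ey ez e0
      rw [if_pos le_rfl, if_pos le_rfl, if_pos le_rfl]
      field_simp
      ring
    have e3 := M.dy k s ⟨le_rfl, M.lt.le⟩
    have e4 : -2 * y k s / s + (1 - (k : ℝ) * ((k : ℝ) + 1) / s ^ 2) * z k s + f2 k s =
        -(cf y z s k * (((k : ℝ) * (k + 1) / s ^ 2 - 1) * jl k s - 2 / s * djl k s)) := by
      rw [M.f2R, M.y_R0, M.z_R0]
      field_simp
      ring
    rw [e4] at e3
    rw [e2]
    refine glue_hasDerivAt M.lt e1 e3 (fun t ht => ?_) (fun t ht => M.ey_eq k ht)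
    unfold ey
    rw [if_pos ht]
  · have e2 : HasDerivAt (y k) (rhs y z f2 k s) s :=
      (M.dy k s ⟨h.le, hs.2.le⟩).hasDerivAt (Icc_mem_nhds h hs.2)
    have e3 : rhs (ey y z R0) (ez y z R0) (e0 f2 R0) k s = rhs y z f2 k s := by
      unfold rhs
      rw [M.ey_eq k h.le, M.ez_eq k h.le, e0_eq M.f2R k h.le]
    rw [e3]
    refine e2.congr_of_eventuallyEq ?_
    filter_upwards [Ioi_mem_nhds h] with t ht
    exact M.ey_eq k (le_of_lt ht)

/-! ### domination of the extended modes -/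

theorem Modes.coef_summable (M : Modes R0 ρ ν y z f1 f2) {q : ℝ} (hq : 0 ≤ q) (hqν : q < ν) (m : ℕ) :
    Summable fun k : ℕ => ((k : ℝ) + 1) ^ m * (q ^ k * |cf y z R0 k * jl k R0|) := by
  have h := (M.bz.of_lt m hq hqν).summable_abs hq (s := R0) ⟨le_rfl, M.lt.le⟩
  refine h.congr fun k => ?_
  rw [M.z_R0 k]

/-- regular solutions on `[s0, R0]` -/
theorem dom_jl {c : ℕ → ℝ} {s0 q : ℝ} {m : ℕ} (hs0 : 0 < s0) (hR : 0 < R0) (hq : 0 ≤ q)
    (hc : Summable fun k : ℕ => ((k : ℝ) + 1) ^ m * (q ^ k * |c k * jl k R0|)) :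
    Dom (fun k s => c k * jl k s) (Icc s0 R0) q m := by
  obtain ⟨k0, hk0⟩ := exists_nat_ge R0
  refine Dom.of_large (k0 := k0) (fun k _ => ?_) ?_ hq
  · have h1 : ContinuousOn (fun s => c k * jl k s) (Icc s0 R0) := by
      refine continuousOn_const.mul fun s hs => ?_
      exact (jl_deriv k (hs0.trans_le hs.1)).continuousAt.continuousWithinAt
    obtain ⟨C, hC⟩ := isCompact_Icc.exists_bound_of_continuousOn h1
    exact ⟨C, fun s hs => hC s hs⟩
  · refine ⟨fun k => |c k * jl k R0|, fun k s hs => ?_, hc⟩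
    dsimp only
    split_ifs with hk
    · rw [abs_zero]
      exact abs_nonneg _
    · have hs1 : 0 < s := hs0.trans_le hs.1
      have hkR : R0 ≤ (k : ℝ) := hk0.trans (by exact_mod_cast not_lt.1 hk)
      have hT : R0 ^ 2 ≤ (k : ℝ) * (k + 1) := by nlinarith
      have hT' : s ^ 2 ≤ (k : ℝ) * (k + 1) := (pow_le_pow_left₀ hs1.le hs.2 2).trans hT
      have h1 := jl_monotoneOn k hT ⟨hs1, hs.2⟩ ⟨hR, le_rfl⟩ hs.2
      have h2 := jl_pos_sq k hs1 hT'
      rw [abs_mul, abs_mul, abs_of_pos h2, abs_of_pos (h2.trans_le h1)]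
      exact mul_le_mul_of_nonneg_left h1 (abs_nonneg _)

/-- derivatives of the regular solutions on `[s0, R0]` -/
theorem dom_djl {c : ℕ → ℝ} {s0 q : ℝ} {m : ℕ} (hs0 : 0 < s0) (hR : 0 < R0) (hq : 0 ≤ q)
    (hc : Summable fun k : ℕ => ((k : ℝ) + 1) ^ (m + 1) * (q ^ k * |c k * jl k R0|)) :
    Dom (fun k s => c k * djl k s) (Icc s0 R0) q m := by
  obtain ⟨k0, hk0⟩ := exists_nat_ge R0
  refine Dom.of_large (k0 := k0) (fun k _ => ?_) ?_ hq
  · have h1 : ContinuousOn (fun s => c k * djl k s) (Icc s0 R0) := by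
      refine continuousOn_const.mul fun s hs => ?_
      exact (Pool.Agent.H23.SB.djl_deriv k (hs0.trans_le hs.1)).continuousAt.continuousWithinAt
    obtain ⟨C, hC⟩ := isCompact_Icc.exists_bound_of_continuousOn h1
    exact ⟨C, fun s hs => hC s hs⟩
  · refine ⟨fun k => ((k : ℝ) + 1) * (1 / s0) * |c k * jl k R0|, fun k s hs => ?_, ?_⟩
    · dsimp only
      split_ifs with hk
      · rw [abs_zero]
        positivity
      · have hs1 : 0 < s := hs0.trans_le hs.1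
        have hkR : R0 ≤ (k : ℝ) := hk0.trans (by exact_mod_cast not_lt.1 hk)
        have hT : R0 ^ 2 ≤ (k : ℝ) * (k + 1) := by nlinarith
        have hT' : s ^ 2 ≤ (k : ℝ) * (k + 1) := (pow_le_pow_left₀ hs1.le hs.2 2).trans hT
        have h1 := jl_monotoneOn k hT ⟨hs1, hs.2⟩ ⟨hR, le_rfl⟩ hs.2
        have h2 := jl_pos_sq k hs1 hT'
        have h3 := djl_nonneg k hs1 hT'
        have h4 := djl_le' k hs1 hT'
        have h5 : djl k s ≤ ((k : ℝ) + 1) * (1 / s0) * jl k R0 := by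
          have hk1 : (0 : ℝ) ≤ k := Nat.cast_nonneg k
          have h6 : s0 * djl k s ≤ ((k : ℝ) + 1) * jl k R0 := by
            have a1 : s0 * djl k s ≤ s * djl k s := mul_le_mul_of_nonneg_right hs.1 h3
            have a2 : (k : ℝ) * jl k s ≤ k * jl k R0 := mul_le_mul_of_nonneg_left h1 hk1
            have a3 : 0 < jl k R0 := h2.trans_le h1
            nlinarith
          have h7 : ((k : ℝ) + 1) * (1 / s0) * jl k R0 = ((k : ℝ) + 1) * jl k R0 / s0 := by ring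
          rw [h7, le_div_iff₀ hs0]
          linarith
        rw [abs_mul, abs_mul, abs_of_nonneg h3, abs_of_pos (h2.trans_le h1)]
        calc |c k| * djl k s ≤ |c k| * (((k : ℝ) + 1) * (1 / s0) * jl k R0) :=
              mul_le_mul_of_nonneg_left h5 (abs_nonneg _)
          _ = _ := by ring
    · refine (hc.mul_left (1 / s0)).congr fun k => ?_
      rw [pow_succ]
      ring

theorem Icc_union_layer {s0 : ℝ} (h0 : s0 ≤ R0) (h1 : R0 ≤ ρ) : Icc s0 R0 ∪ Icc R0 ρ = Icc s0 ρ :=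
  Icc_union_Icc_eq_Icc h0 h1

theorem Modes.dom_ez (M : Modes R0 ρ ν y z f1 f2) {s0 q : ℝ} (hs0 : 0 < s0) (h : s0 ≤ R0) (hq : 0 ≤ q)
    (hqν : q < ν) (m : ℕ) : Dom (ez y z R0) (Icc s0 ρ) q m := by
  rw [← Icc_union_layer h M.lt.le]
  refine Dom.union hq ?_ ?_
  · refine (dom_jl hs0 M.pos hq (M.coef_summable hq hqν m)).congr fun k s hs => ?_
    unfold ez
    rw [if_pos hs.2]
  · exact (M.bz.of_lt m hq hqν).congr fun k s hs => M.ez_eq k hs.1

theorem Modes.dom_ey (M : Modes R0 ρ ν y z f1 f2) {s0 q : ℝ} (hs0 : 0 < s0) (h : s0 ≤ R0) (hq : 0 ≤ q)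
    (hqν : q < ν) (m : ℕ) : Dom (ey y z R0) (Icc s0 ρ) q m := by
  rw [← Icc_union_layer h M.lt.le]
  refine Dom.union hq ?_ ?_
  · refine (dom_djl hs0 M.pos hq (M.coef_summable hq hqν (m + 1))).neg.congr fun k s hs => ?_
    unfold ey
    rw [if_pos hs.2]
  · exact (M.by'.of_lt m hq hqν).congr fun k s hs => M.ey_eq k hs.1

theorem dom_e0 {f : ℕ → ℝ → ℝ} (hf : ∀ k, f k R0 = 0) (hd : Dom f (Icc R0 ρ) ν 0) (hlt : R0 ≤ ρ) {s0 q : ℝ}
    (h : s0 ≤ R0) (hq : 0 ≤ q) (hqν : q < ν) (m : ℕ) : Dom (e0 f R0) (Icc s0 ρ) q m := by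
  rw [← Icc_union_layer h hlt]
  refine Dom.union hq ?_ ?_
  · refine ⟨fun _ => 0, fun k s hs => ?_, by simp⟩
    unfold e0
    rw [if_pos hs.2, abs_zero]
  · exact (hd.of_lt m hq hqν).congr fun k s hs => e0_eq hf k hs.1

/-- the right hand side is dominated -/
theorem Dom.rhs {y z f2 : ℕ → ℝ → ℝ} {s0 s1 q : ℝ} {m : ℕ} (hs0 : 0 < s0) (hq : 0 ≤ q)
    (hy : Dom y (Icc s0 s1) q m) (hz : Dom z (Icc s0 s1) q (m + 2)) (hf : Dom f2 (Icc s0 s1) q m) :
    Dom (rhs y z f2) (Icc s0 s1) q m := by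
  have c1 : ∀ s ∈ Icc s0 s1, |-2 / s| ≤ 2 / s0 := by
    intro s hs
    have hs' : 0 < s := hs0.trans_le hs.1
    rw [abs_div, abs_neg, abs_two, abs_of_pos hs']
    exact div_le_div_of_nonneg_left (by norm_num) hs0 hs.1
  have c2 : ∀ s ∈ Icc s0 s1, |-1 / s ^ 2| ≤ 1 / s0 ^ 2 := by
    intro s hs
    have hs' : 0 < s := hs0.trans_le hs.1
    rw [abs_div, abs_neg, abs_one, abs_of_pos (by positivity)]
    exact div_le_div_of_nonneg_left (by norm_num) (by positivity) (pow_le_pow_left₀ hs0.le hs.1 2)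
  have h1 := Dom.smul c1 hy
  have h2 := hz.of_le (show m ≤ m + 2 by omega) hq
  have h3 := Dom.smul c2 (Dom.lam hq hz)
  refine (((h1.add h2).add h3).add hf).congr fun k s hs => ?_
  have hs' : s ≠ 0 := (hs0.trans_le hs.1).ne'
  unfold SD.rhs
  field_simp
  ring

end

end SD
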