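import Pool.Agent.H27.Leg.Bd
import Pool.Agent.H36.SC.Jet

/-!
# MP_f4af34 (Schiffer in R^3), block DICTIONARY: Legendre series with coefficients depending on `s`

`LS d g s x` is the sum over `k` of `g k s` times the `d`-th derivative of the Legendre polynomial
`P k` at `x`; `J q` is an open interval containing `[-1, 1]` on which `|P k| ≤ q ^ k`.
`Dom g I q m` : the mode functions `g k` are bounded on `I` by constants `B k` with
`∑ (k + 1) ^ m q ^ k B k < ∞`.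
-/

set_option autoImplicit false
open Filter Topology Set Polynomial

namespace SD

open Pool.Agent.H27.Leg Pool.Agent.H36.SC

/-- the `d`-th derivative of the Legendre polynomial, as a function -/
noncomputable def Pd (d k : ℕ) (x : ℝ) : ℝ := (derivative^[d] (P k)).eval x

/-- an open interval containing `[-1, 1]` -/
def J (q : ℝ) : Set ℝ := Ioo (-((q + 1 / q) / 2)) ((q + 1 / q) / 2)

theorem isOpen_J (q : ℝ) : IsOpen (J q) := isOpen_Ioo

theorem mem_J {q x : ℝ} : x ∈ J q ↔ 2 * |x| < q + 1 / q := by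
  unfold J
  rw [mem_Ioo, ← abs_lt]
  constructor <;> intro h <;> linarith

theorem one_lt_half {q : ℝ} (hq : 1 < q) : 1 < (q + 1 / q) / 2 := by
  have h0 : 0 < q := by linarith
  have h1 : 0 < (q - 1) ^ 2 / q := by
    have : 0 < q - 1 := by linarith
    positivity
  have h2 : (q - 1) ^ 2 / q = q + 1 / q - 2 := by
    field_simp
    ring
  linarith

theorem Icc_subset_J {q : ℝ} (hq : 1 < q) : Icc (-1 : ℝ) 1 ⊆ J q := by
  intro x hx
  have h := one_lt_half hq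
  exact ⟨by linarith [hx.1], by linarith [hx.2]⟩

theorem neg_mem_J {q x : ℝ} (h : x ∈ J q) : -x ∈ J q := by
  rw [mem_J] at h ⊢
  rwa [abs_neg]

theorem Pd_zero (k : ℕ) (x : ℝ) : Pd 0 k x = (P k).eval x := rfl

theorem Pd_one (k : ℕ) (x : ℝ) : Pd 1 k x = (derivative (P k)).eval x := rfl

theorem Pd_two (k : ℕ) (x : ℝ) : Pd 2 k x = (derivative (derivative (P k))).eval x := rfl

theorem hasDerivAt_Pd (d k : ℕ) (x : ℝ) : HasDerivAt (Pd d k) (Pd (d + 1) k x) x := by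
  have h := (derivative^[d] (P k)).hasDerivAt x
  unfold Pd
  rwa [Function.iterate_succ_apply']

theorem continuous_Pd (d k : ℕ) : Continuous (Pd d k) := (derivative^[d] (P k)).continuous

theorem abs_Pd_le {d : ℕ} (hd : d ≤ 2) (k : ℕ) {q x : ℝ} (hq : 1 ≤ q) (hx : x ∈ J q) :
    |Pd d k x| ≤ ((k : ℝ) + 1) ^ (2 * d) * q ^ k := by
  have hx' : 2 * |x| ≤ q + 1 / q := (mem_J.1 hx).le
  have hk : (0 : ℝ) ≤ (k : ℝ) := Nat.cast_nonneg k
  have hqk : 0 ≤ q ^ k := by positivity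
  obtain rfl | rfl | rfl : d = 0 ∨ d = 1 ∨ d = 2 := by omega
  · rw [mul_zero, pow_zero, one_mul]
    exact abs_le_pow k hq hx'
  · refine (abs_der_le k hq hx').trans (mul_le_mul_of_nonneg_right ?_ hqk)
    nlinarith
  · refine (abs_der2_le k hq hx').trans (mul_le_mul_of_nonneg_right ?_ hqk)
    have h1 : (k : ℝ) * ((k : ℝ) + 1) ≤ ((k : ℝ) + 1) ^ 2 := by nlinarith
    have h2 : ((k : ℝ) * ((k : ℝ) + 1)) ^ 2 ≤ (((k : ℝ) + 1) ^ 2) ^ 2 :=
      pow_le_pow_left₀ (by positivity) h1 2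
    have h3 : (((k : ℝ) + 1) ^ 2) ^ 2 = ((k : ℝ) + 1) ^ (2 * 2) := by rw [← pow_mul]
    rw [h3] at h2
    have h4 : 0 ≤ ((k : ℝ) * ((k : ℝ) + 1)) ^ 2 := by positivity
    linarith

/-- the Legendre series with coefficients depending on `s`, differentiated `d` times in `x` -/
noncomputable def LS (d : ℕ) (g : ℕ → ℝ → ℝ) (s x : ℝ) : ℝ := ∑' k, g k s * Pd d k x

/-- domination of the mode functions on `I` -/
def Dom (g : ℕ → ℝ → ℝ) (I : Set ℝ) (q : ℝ) (m : ℕ) : Prop :=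
  ∃ B : ℕ → ℝ, (∀ k, ∀ s ∈ I, |g k s| ≤ B k) ∧ Summable fun k : ℕ => ((k : ℝ) + 1) ^ m * (q ^ k * B k)

theorem Dom.mono {g : ℕ → ℝ → ℝ} {I I' : Set ℝ} {q : ℝ} {m : ℕ} (h : Dom g I q m) (hI : I' ⊆ I) :
    Dom g I' q m := by
  obtain ⟨B, h1, h2⟩ := h
  exact ⟨B, fun k s hs => h1 k s (hI hs), h2⟩

/-- the nonnegative version of the bounds -/
theorem Dom.nonneg {g : ℕ → ℝ → ℝ} {I : Set ℝ} {q : ℝ} {m : ℕ} (h : Dom g I q m) (hI : I.Nonempty) :
    ∃ B : ℕ → ℝ, (∀ k, 0 ≤ B k) ∧ (∀ k, ∀ s ∈ I, |g k s| ≤ B k) ∧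
      Summable fun k : ℕ => ((k : ℝ) + 1) ^ m * (q ^ k * B k) := by
  obtain ⟨B, h1, h2⟩ := h
  obtain ⟨s, hs⟩ := hI
  exact ⟨B, fun k => (abs_nonneg _).trans (h1 k s hs), h1, h2⟩

/-- a lower weight -/
theorem Dom.of_le {g : ℕ → ℝ → ℝ} {I : Set ℝ} {q : ℝ} {m m' : ℕ} (h : Dom g I q m) (hm : m' ≤ m)
    (hq : 0 ≤ q) : Dom g I q m' := by
  rcases I.eq_empty_or_nonempty with rfl | hI
  · exact ⟨fun _ => 0, fun k s hs => absurd hs (notMem_empty s), by simp⟩
  obtain ⟨B, h0, h1, h2⟩ := h.nonneg hI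
  refine ⟨B, h1, Summable.of_nonneg_of_le (fun k => ?_) (fun k => ?_) h2⟩
  · have := h0 k
    positivity
  · refine mul_le_mul_of_nonneg_right ?_ (mul_nonneg (by positivity) (h0 k))
    exact pow_le_pow_right₀ (by have : (0 : ℝ) ≤ k := Nat.cast_nonneg k; linarith) hm

/-- the geometric weight absorbs all powers -/
theorem Dom.of_lt {g : ℕ → ℝ → ℝ} {I : Set ℝ} {q q' : ℝ} {m : ℕ} (h : Dom g I q' m) (m' : ℕ)
    (hq : 0 ≤ q) (hqq : q < q') : Dom g I q m' := by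
  rcases I.eq_empty_or_nonempty with rfl | hI
  · exact ⟨fun _ => 0, fun k s hs => absurd hs (notMem_empty s), by simp⟩
  obtain ⟨B, h0, h1, h2⟩ := (h.of_le (Nat.zero_le m) (hq.trans hqq.le)).nonneg hI
  simp only [pow_zero, one_mul] at h2
  have hq' : 0 < q' := lt_of_le_of_lt hq hqq
  have hr : ‖q / q'‖ < 1 := by
    rw [Real.norm_eq_abs, abs_of_nonneg (by positivity), div_lt_one hq']
    exact hqq
  have h3 : Tendsto (fun k : ℕ => ((k : ℝ) + 1) ^ m' * (q / q') ^ k) atTop (𝓝 0) := by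
    have h4 := (summable_pow_mul_geometric_of_norm_lt_one m' hr).tendsto_atTop_zero
    have h5 := (tendsto_add_atTop_iff_nat 1).2 h4
    rcases eq_or_ne q 0 with rfl | hq0
    · refine tendsto_const_nhds.congr' ?_
      filter_upwards [eventually_ge_atTop 1] with k hk
      rw [zero_div, zero_pow (by omega), mul_zero]
    · have hne : q / q' ≠ 0 := div_ne_zero hq0 hq'.ne'
      have h6 := h5.mul_const ((q / q')⁻¹)
      rw [zero_mul] at h6
      refine h6.congr fun k => ?_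
      push_cast
      rw [pow_succ]
      field_simp
  obtain ⟨C, hC⟩ := h3.bddAbove_range
  refine ⟨B, h1, Summable.of_nonneg_of_le (fun k => ?_) (fun k => ?_) (h2.mul_left C)⟩
  · have := h0 k
    positivity
  · have h7 : ((k : ℝ) + 1) ^ m' * (q / q') ^ k ≤ C := hC ⟨k, rfl⟩
    have h8 : ((k : ℝ) + 1) ^ m' * (q ^ k * B k) =
        (((k : ℝ) + 1) ^ m' * (q / q') ^ k) * (q' ^ k * B k) := by
      rw [div_pow]
      field_simp
    rw [h8]
    exact mul_le_mul_of_nonneg_right h7 (mul_nonneg (by positivity) (h0 k))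

section basic

variable {g g' : ℕ → ℝ → ℝ} {I : Set ℝ} {q : ℝ}

private theorem term_le {B : ℕ → ℝ} (hB : ∀ k, ∀ s ∈ I, |g k s| ≤ B k) {d : ℕ} (hd : d ≤ 2)
    (hq : 1 ≤ q) {s x : ℝ} (hs : s ∈ I) (hx : x ∈ J q) (k : ℕ) :
    ‖g k s * Pd d k x‖ ≤ ((k : ℝ) + 1) ^ (2 * d) * (q ^ k * B k) := by
  rw [Real.norm_eq_abs, abs_mul]
  have h1 := hB k s hs
  have h2 := abs_Pd_le hd k hq hx
  calc |g k s| * |Pd d k x| ≤ B k * (((k : ℝ) + 1) ^ (2 * d) * q ^ k) :=
        mul_le_mul h1 h2 (abs_nonneg _) ((abs_nonneg _).trans h1)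
    _ = _ := by ring

theorem LS_summable {d : ℕ} (h : Dom g I q (2 * d)) (hd : d ≤ 2) (hq : 1 ≤ q) {s x : ℝ} (hs : s ∈ I)
    (hx : x ∈ J q) : Summable fun k => g k s * Pd d k x := by
  obtain ⟨B, h1, h2⟩ := h
  exact Summable.of_norm_bounded h2 (term_le h1 hd hq hs hx)

theorem LS_continuousOn {d : ℕ} (hc : ∀ k, ContinuousOn (g k) I) (h : Dom g I q (2 * d)) (hd : d ≤ 2)
    (hq : 1 ≤ q) : ContinuousOn (fun p : ℝ × ℝ => LS d g p.1 p.2) (I ×ˢ J q) := by
  obtain ⟨B, h1, h2⟩ := h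
  unfold LS
  refine continuousOn_tsum (fun k => ?_) h2 fun k p hp => term_le h1 hd hq hp.1 hp.2 k
  exact ((hc k).comp continuousOn_fst fun p hp => hp.1).mul
    ((continuous_Pd d k).continuousOn.comp continuousOn_snd fun p _ => mem_univ p.2)

private theorem norm_hd_le (a b : ℝ) : ‖hd a b‖ ≤ |a| + |b| := by
  refine ContinuousLinearMap.opNorm_le_bound _ (by positivity) fun p => ?_
  rw [hd_apply, Real.norm_eq_abs]
  have h1 : |p.1| ≤ ‖p‖ := norm_fst_le p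
  have h2 : |p.2| ≤ ‖p‖ := norm_snd_le p
  calc |a * p.1 + b * p.2| ≤ |a * p.1| + |b * p.2| := abs_add_le _ _
    _ = |a| * |p.1| + |b| * |p.2| := by rw [abs_mul, abs_mul]
    _ ≤ |a| * ‖p‖ + |b| * ‖p‖ := add_le_add (mul_le_mul_of_nonneg_left h1 (abs_nonneg _))
        (mul_le_mul_of_nonneg_left h2 (abs_nonneg _))
    _ = _ := by ring

private theorem tsum_hd {a b : ℕ → ℝ} (ha : Summable a) (hb : Summable b) :
    ∑' k, hd (a k) (b k) = hd (∑' k, a k) (∑' k, b k) := by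
  unfold hd
  exact ((ha.hasSum.smul_const _).add (hb.hasSum.smul_const _)).tsum_eq

/-- the series may be differentiated termwise -/
theorem LS_hasFDerivAt {d : ℕ} {a b : ℝ} (hg : ∀ k, ∀ s ∈ Ioo a b, HasDerivAt (g k) (g' k s) s)
    (h : Dom g (Ioo a b) q (2 * (d + 1))) (h' : Dom g' (Ioo a b) q (2 * d)) (hd2 : d + 1 ≤ 2)
    (hq : 1 ≤ q) {s x : ℝ} (hs : s ∈ Ioo a b) (hx : x ∈ J q) :
    HasFDerivAt (fun p : ℝ × ℝ => LS d g p.1 p.2) (hd (LS d g' s x) (LS (d + 1) g s x)) (s, x) := by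
  have hsum0 := LS_summable (h.of_le (show 2 * d ≤ 2 * (d + 1) by omega) (by linarith)) (by omega) hq hs hx
  have hs1 := LS_summable h' (by omega) hq hs hx
  have hs2 := LS_summable h hd2 hq hs hx
  obtain ⟨B, h1, h2⟩ := h
  obtain ⟨B', h1', h2'⟩ := h'
  have key := hasFDerivAt_tsum_of_isPreconnected (𝕜 := ℝ) (s := Ioo a b ×ˢ J q)
    (f := fun (k : ℕ) (p : ℝ × ℝ) => g k p.1 * Pd d k p.2)
    (f' := fun (k : ℕ) (p : ℝ × ℝ) => hd (g' k p.1 * Pd d k p.2) (g k p.1 * Pd (d + 1) k p.2))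
    (u := fun k : ℕ => ((k : ℝ) + 1) ^ (2 * d) * (q ^ k * B' k) + ((k : ℝ) + 1) ^ (2 * (d + 1)) * (q ^ k * B k))
    (h2'.add h2) (isOpen_Ioo.prod (isOpen_J q)) (isPreconnected_Ioo.prod isPreconnected_Ioo)
    (fun k p hp => ?_) (fun k p hp => ?_) (x₀ := (s, x)) (x := (s, x)) ⟨hs, hx⟩ hsum0 ⟨hs, hx⟩
  · rw [tsum_hd hs1 hs2] at key
    exact key
  · have e1 : HasFDerivAt (fun p : ℝ × ℝ => g k p.1) (g' k p.1 • ContinuousLinearMap.fst ℝ ℝ ℝ) p :=
      (hg k p.1 hp.1).comp_hasFDerivAt p hasFDerivAt_fst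
    have e2 : HasFDerivAt (fun p : ℝ × ℝ => Pd d k p.2) (Pd (d + 1) k p.2 • ContinuousLinearMap.snd ℝ ℝ ℝ) p :=
      (hasDerivAt_Pd d k p.2).comp_hasFDerivAt p hasFDerivAt_snd
    have e3 := e1.mul e2
    refine e3.congr_fderiv ?_
    ext <;> simp [hd]
    ring
  · refine (norm_hd_le _ _).trans (add_le_add ?_ ?_)
    · exact term_le h1' (by omega) hq hp.1 hp.2 k
    · exact term_le h1 hd2 hq hp.1 hp.2 k

/-- the differential equation of the Legendre polynomials, summed -/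
theorem LS_ode (h : Dom g I q 4) (hq : 1 ≤ q) {s x : ℝ} (hs : s ∈ I) (hx : x ∈ J q) :
    (1 - x ^ 2) * LS 2 g s x - 2 * x * LS 1 g s x =
      -LS 0 (fun (k : ℕ) s => (k : ℝ) * ((k : ℝ) + 1) * g k s) s x := by
  have hq0 : 0 ≤ q := by linarith
  have s2 := LS_summable (d := 2) h le_rfl hq hs hx
  have s1 := LS_summable (d := 1) (h.of_le (by norm_num) hq0) (by norm_num) hq hs hx
  unfold LS
  rw [← s2.tsum_mul_left, ← s1.tsum_mul_left, ← (s2.mul_left _).tsum_sub (s1.mul_left _), ← tsum_neg]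
  refine tsum_congr fun k => ?_
  have h1 := ode_eval k x
  rw [Pd_two, Pd_one, Pd_zero]
  linear_combination g k s * h1

theorem LS_add {d : ℕ} {f g : ℕ → ℝ → ℝ} {s x : ℝ} (hf : Summable fun k => f k s * Pd d k x)
    (hg : Summable fun k => g k s * Pd d k x) :
    LS d (fun k s => f k s + g k s) s x = LS d f s x + LS d g s x := by
  unfold LS
  rw [← hf.tsum_add hg]
  exact tsum_congr fun k => by ring

theorem LS_smul {d : ℕ} (c : ℝ → ℝ) (f : ℕ → ℝ → ℝ) (s x : ℝ) :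
    LS d (fun k s => c s * f k s) s x = c s * LS d f s x := by
  unfold LS
  rw [← tsum_mul_left]
  exact tsum_congr fun k => by ring

theorem LS_neg {d : ℕ} (f : ℕ → ℝ → ℝ) (s x : ℝ) :
    LS d (fun k s => -f k s) s x = -LS d f s x := by
  unfold LS
  rw [← tsum_neg]
  exact tsum_congr fun k => by ring

/-- evenness: only even modes -/
theorem LS_even {f : ℕ → ℝ → ℝ} (hodd : ∀ k, Odd k → ∀ s, f k s = 0) (s x : ℝ) :
    LS 0 f s (-x) = LS 0 f s x := by
  unfold LS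
  refine tsum_congr fun k => ?_
  rcases Nat.even_or_odd k with hk | hk
  · rw [Pd_zero, Pd_zero, eval_neg', hk.neg_one_pow, one_mul]
  · rw [hodd k hk, zero_mul, zero_mul]

end basic

end SD
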