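import Pool.Agent.H47.SD.Ext
import Pool.Agent.H97.SF.DD
import Pool.Agent.H36.SC.BgSF

/-!
# MP_f4af34 (Schiffer in R^3), block END: the extended modes of a solution `S : SF.Lay E`

`SD.modes` : the linear data of `S` (all Wronskians zero); `SD.ext` : helper97's structure `Ext`
on `(a, ρ]` for every `0 < a < R0`.
-/

set_option autoImplicit false
open Filter Topology Set

namespace SD

open Pool.Agent.H68.SC Pool.Agent.H36.SC Pool.Agent.H97.SF

/-- the weights used for the sums -/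
noncomputable def q1 : ℝ := 1 + 1 / 10 ^ 6
noncomputable def nu1 : ℝ := 1 + 1 / 10 ^ 5

theorem one_lt_q1 : 1 < q1 := by unfold q1; norm_num

theorem q1_lt_nu1 : q1 < nu1 := by unfold q1 nu1; norm_num

theorem nu1_lt_nu : nu1 < SF.nu := by unfold nu1 SF.nu; norm_num

theorem one_lt_nu1 : 1 < nu1 := one_lt_q1.trans q1_lt_nu1

theorem J_subset_X0 : J q1 ⊆ SF.X0 := by
  intro x hx
  have h : (q1 + 1 / q1) / 2 < SF.xi := by unfold SF.xi q1; norm_num
  exact ⟨by linarith [hx.1], by linarith [hx.2]⟩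

theorem Icc_subset_X0 : Icc (-1 : ℝ) 1 ⊆ SF.X0 := (Icc_subset_J one_lt_q1).trans J_subset_X0

section

variable {E : ℝ} (S : SF.Lay E)

/-- the linear part of the data -/
theorem modes (h : ∀ k, Even k → S.wr k = 0) : Modes SF.R0 SF.rho SF.nu S.y S.z S.f1 S.f2 where
  pos := SF.R0_pos'
  lt := SF.R0_lt_rho
  nu := one_lt_nu1.trans nu1_lt_nu
  dz := S.z_deriv
  dy := fun k s hs => by
    have h1 := S.y_deriv k s hs
    refine h1.congr_deriv ?_
    unfold SF.dy SF.lam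
    ring
  c1 := S.f1_cont
  c2 := S.f2_cont
  f1R := S.f1_R0
  f2R := S.f2_R0
  wr := fun k => by
    rcases Nat.even_or_odd k with hk | hk
    · exact h k hk
    · obtain ⟨h1, h2, -, -⟩ := S.odd k hk SF.R0 ⟨le_rfl, SF.R0_lt_rho.le⟩
      rw [h1, h2]
      ring
  by' := ⟨S.B, fun k s hs => by
    have h1 := S.y_le k s hs
    have h2 : 0 ≤ (k : ℝ) * |S.y k s| := by positivity
    linarith, by simpa using S.B_sum⟩
  bz := ⟨S.B, fun k s hs => by
    have h1 := S.z_le k s hs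
    have h2 : 0 ≤ ((1 + (k : ℝ)) ^ 2 - 1) * |S.z k s| := by
      refine mul_nonneg ?_ (abs_nonneg _)
      have : (0 : ℝ) ≤ k := Nat.cast_nonneg k
      nlinarith
    linarith, by simpa using S.B_sum⟩
  b1 := ⟨S.B, S.f1_le, by simpa using S.B_sum⟩
  b2 := ⟨S.B, S.f2_le, by simpa using S.B_sum⟩

theorem cont_e0 {f : ℕ → ℝ → ℝ} (hf : ∀ k, f k SF.R0 = 0) (hc : ∀ k, ContinuousOn (f k) SF.I0) (k : ℕ) :
    ContinuousOn (e0 f SF.R0 k) (Iic SF.rho) := by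
  have h1 : ContinuousOn (fun s => f k (max s SF.R0)) (Iic SF.rho) := by
    refine (hc k).comp (by fun_prop) fun s hs => ?_
    exact ⟨le_max_right _ _, max_le hs SF.R0_lt_rho.le⟩
  refine h1.congr fun s hs => ?_
  show e0 f SF.R0 k s = f k (max s SF.R0)
  rcases le_total s SF.R0 with h | h
  · unfold e0
    rw [if_pos h, max_eq_right h, hf]
  · rw [e0_eq hf k h, max_eq_left h]

theorem LS_e0_zero {f : ℕ → ℝ → ℝ} {s x : ℝ} (hs : s ≤ SF.R0) (d : ℕ) : LS d (e0 f SF.R0) s x = 0 := by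
  unfold LS
  have h1 : ∀ k, e0 f SF.R0 k s * Pd d k x = 0 := by
    intro k
    unfold e0
    rw [if_pos hs, zero_mul]
  simp only [h1, tsum_zero]

theorem LS_congr {f g : ℕ → ℝ → ℝ} {s x : ℝ} (d : ℕ) (h : ∀ k, f k s = g k s) : LS d f s x = LS d g s x := by
  unfold LS
  exact tsum_congr fun k => by rw [h k]

/-- the extended modes -/
noncomputable abbrev mz : ℕ → ℝ → ℝ := ez S.y S.z SF.R0
noncomputable abbrev my : ℕ → ℝ → ℝ := ey S.y S.z SF.R0
noncomputable abbrev m1 : ℕ → ℝ → ℝ := e0 S.f1 SF.R0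
noncomputable abbrev m2 : ℕ → ℝ → ℝ := e0 S.f2 SF.R0

variable {S} (h : ∀ k, Even k → S.wr k = 0)
include h

theorem my_eq (k : ℕ) {s : ℝ} (hs : SF.R0 ≤ s) : my S k s = S.y k s := (modes S h).ey_eq k hs

theorem mz_eq (k : ℕ) {s : ℝ} (hs : SF.R0 ≤ s) : mz S k s = S.z k s := (modes S h).ez_eq k hs

omit h in
theorem m1_eq (k : ℕ) {s : ℝ} (hs : SF.R0 ≤ s) : m1 S k s = S.f1 k s := e0_eq S.f1_R0 k hs

omit h in
theorem m2_eq (k : ℕ) {s : ℝ} (hs : SF.R0 ≤ s) : m2 S k s = S.f2 k s := e0_eq S.f2_R0 k hs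

theorem mys_eq (k : ℕ) {s : ℝ} (hs : SF.R0 ≤ s) :
    yd (my S) (mz S) (m2 S) k s = SF.dy k s (S.y k s) (S.z k s) (S.f2 k s) := by
  show -2 * my S k s / s + (1 - (k : ℝ) * ((k : ℝ) + 1) / s ^ 2) * mz S k s + m2 S k s = _
  rw [my_eq h k hs, mz_eq h k hs, m2_eq k hs]
  unfold SF.dy SF.lam
  ring

theorem ev_y {s x : ℝ} (hs : SF.R0 ≤ s) : LS 0 (my S) s x = SF.ev (fun k => S.y k s) x :=
  LS_congr 0 (f := my S) (g := S.y) fun k => my_eq h k hs

theorem ev1_y {s x : ℝ} (hs : SF.R0 ≤ s) : LS 1 (my S) s x = SF.ev1 (fun k => S.y k s) x :=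
  LS_congr 1 (f := my S) (g := S.y) fun k => my_eq h k hs

theorem ev_z {s x : ℝ} (hs : SF.R0 ≤ s) : LS 0 (mz S) s x = SF.ev (fun k => S.z k s) x :=
  LS_congr 0 (f := mz S) (g := S.z) fun k => mz_eq h k hs

omit h in
theorem ev_f1 {s x : ℝ} (hs : SF.R0 ≤ s) : LS 0 (m1 S) s x = SF.ev (fun k => S.f1 k s) x :=
  LS_congr 0 (f := m1 S) (g := S.f1) fun k => m1_eq k hs

omit h in
theorem ev_f2 {s x : ℝ} (hs : SF.R0 ≤ s) : LS 0 (m2 S) s x = SF.ev (fun k => S.f2 k s) x :=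
  LS_congr 0 (f := m2 S) (g := S.f2) fun k => m2_eq k hs

theorem ev_ys {s x : ℝ} (hs : SF.R0 ≤ s) : LS 0 (yd (my S) (mz S) (m2 S)) s x =
    SF.ev (fun k => SF.dy k s (S.y k s) (S.z k s) (S.f2 k s)) x :=
  LS_congr 0 (f := yd (my S) (mz S) (m2 S)) (g := fun k s => SF.dy k s (S.y k s) (S.z k s) (S.f2 k s))
    fun k => mys_eq h k hs

theorem ev_lam {s x : ℝ} (hs : SF.R0 ≤ s) :
    LS 0 (fun (k : ℕ) s => (k : ℝ) * ((k : ℝ) + 1) * mz S k s) s x =
      SF.ev (fun k => SF.lam k * S.z k s) x :=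
  LS_congr 0 (f := fun (k : ℕ) s => (k : ℝ) * ((k : ℝ) + 1) * mz S k s)
    (g := fun k s => SF.lam k * S.z k s) fun k => by
      show (k : ℝ) * ((k : ℝ) + 1) * mz S k s = _
      rw [mz_eq h k hs]
      rfl

theorem my_cont (k : ℕ) : ContinuousOn (my S k) (Ioc 0 SF.rho) := by
  intro s hs
  have M := modes S h
  rcases hs.2.eq_or_lt with rfl | hlt
  · have h1 := (M.dy k SF.rho ⟨SF.R0_lt_rho.le, le_rfl⟩).continuousWithinAt
    have h2 : ContinuousWithinAt (my S k) (Icc SF.R0 SF.rho) SF.rho :=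
      h1.congr (fun t ht => M.ey_eq k ht.1) (M.ey_eq k SF.R0_lt_rho.le)
    refine h2.mono_of_mem_nhdsWithin ?_
    have h3 : Ioi SF.R0 ∈ 𝓝 SF.rho := Ioi_mem_nhds SF.R0_lt_rho
    filter_upwards [self_mem_nhdsWithin, mem_nhdsWithin_of_mem_nhds h3] with t ht ht2
    exact ⟨le_of_lt ht2, ht.2⟩
  · exact (M.ey_deriv k ⟨hs.1, hlt⟩).continuousAt.continuousWithinAt

theorem mz_cont (k : ℕ) : ContinuousOn (mz S k) (Ioc 0 SF.rho) := by
  intro s hs
  have M := modes S h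
  rcases hs.2.eq_or_lt with rfl | hlt
  · have h1 := (M.dz k SF.rho ⟨SF.R0_lt_rho.le, le_rfl⟩).continuousWithinAt
    have h2 : ContinuousWithinAt (mz S k) (Icc SF.R0 SF.rho) SF.rho :=
      h1.congr (fun t ht => M.ez_eq k ht.1) (M.ez_eq k SF.R0_lt_rho.le)
    refine h2.mono_of_mem_nhdsWithin ?_
    have h3 : Ioi SF.R0 ∈ 𝓝 SF.rho := Ioi_mem_nhds SF.R0_lt_rho
    filter_upwards [self_mem_nhdsWithin, mem_nhdsWithin_of_mem_nhds h3] with t ht ht2
    exact ⟨le_of_lt ht2, ht.2⟩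
  · exact (M.ez_deriv k ⟨hs.1, hlt⟩).continuousAt.continuousWithinAt

omit h in
theorem chi_bounds {s : ℝ} (h1 : SF.R0 ≤ s) (h2 : s ≤ SF.rho) :
    0 ≤ SF.chi s ∧ SF.chi s ≤ 1 ∧ 0 ≤ SF.chi1 s ∧ SF.chi1 s ≤ 12 := by
  have h3 : s - SF.R0 ≤ 1 / 4 := by
    unfold SF.R0 SF.wd
    linarith
  have h4 : 0 ≤ s - SF.R0 := by linarith
  show 0 ≤ cut SF.R0 SF.wd s ∧ cut SF.R0 SF.wd s ≤ 1 ∧ 0 ≤ cut1 SF.R0 SF.wd s ∧ cut1 SF.R0 SF.wd s ≤ 12
  unfold cut cut1 SF.wd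
  rw [ppt_of_nonneg h4]
  have h5 : (s - SF.R0) ^ 2 ≤ (1 / 4) ^ 2 := pow_le_pow_left₀ h4 h3 2
  have h6 : (s - SF.R0) ^ 3 ≤ (1 / 4) ^ 3 := pow_le_pow_left₀ h4 h3 3
  refine ⟨by positivity, ?_, by positivity, ?_⟩
  · rw [div_le_iff₀ (by norm_num)]
    linarith
  · rw [div_le_iff₀ (by norm_num)]
    norm_num at h5 ⊢
    linarith

theorem small_y {s x : ℝ} (h1 : SF.R0 ≤ s) (h2 : s ≤ SF.rho) (hx : x ∈ SF.X0) :
    |LS 0 (my S) s x| ≤ 1 / 1000 ∧ |LS 0 (yd (my S) (mz S) (m2 S)) s x| ≤ 1 / 1000 := by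
  rw [ev_y h h1, ev_ys h h1]
  exact S.small s ⟨h1, h2⟩ x hx

/-- helper97's structure for the extended modes -/
theorem ext {a : ℝ} (ha : 0 < a) (haR : a < SF.R0) :
    Ext a SF.R0 SF.rho nu1 q1 SF.v0 SF.v1 SF.v2 SF.v3 SF.chi SF.chi1
      (ey S.y S.z SF.R0) (ez S.y S.z SF.R0) (e0 S.f1 SF.R0) (e0 S.f2 SF.R0) := by
  have M := modes S h
  have hn0 : 0 ≤ nu1 := by linarith [one_lt_nu1]
  have sub : Ioo a SF.rho ⊆ Icc a SF.rho := Ioo_subset_Icc_self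
  have subC : Ioc a SF.rho ⊆ Icc a SF.rho := Ioc_subset_Icc_self
  have sub0C : Ioc a SF.rho ⊆ Ioc 0 SF.rho := fun s hs => ⟨ha.trans hs.1, hs.2⟩
  refine
    { a_pos := ha
      aρ := haR.trans SF.R0_lt_rho
      one_lt := one_lt_q1
      lt := q1_lt_nu1
      hz := fun k s hs => M.ez_deriv k ⟨ha.trans hs.1, hs.2⟩
      hy := fun k s hs => M.ey_deriv k ⟨ha.trans hs.1, hs.2⟩
      cy := fun k => (my_cont h k).mono sub0C
      cz := fun k => (mz_cont h k).mono sub0C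
      cf1 := fun k => (cont_e0 S.f1_R0 S.f1_cont k).mono fun s hs => hs.2.le
      cf2 := fun k => (cont_e0 S.f2_R0 S.f2_cont k).mono fun s hs => hs.2.le
      Dy := (M.dom_ey ha haR.le hn0 nu1_lt_nu 0).mono subC
      Dz := (M.dom_ez ha haR.le hn0 nu1_lt_nu 0).mono subC
      Df1 := (dom_e0 S.f1_R0 M.b1 SF.R0_lt_rho.le haR.le hn0 nu1_lt_nu 0).mono sub
      Df2 := (dom_e0 S.f2_R0 M.b2 SF.R0_lt_rho.le haR.le hn0 nu1_lt_nu 0).mono sub
      zρ := fun k => by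
        rw [M.ez_eq k SF.R0_lt_rho.le]
        exact S.z_rho k
      e1 := ?_
      e2 := ?_
      rs_pos := ?_
      r_pos := ?_ }
  · intro s hs x hx
    rcases le_total s SF.R0 with hR | hR
    · rw [LS_e0_zero hR, SF.chi_of_le hR, SF.chi1_of_le hR]
      ring
    · have e := S.eq1 s ⟨hR, hs.2.le⟩ x (J_subset_X0 hx)
      rw [← ev_f1 hR, ← ev_y h hR] at e
      exact e
  · intro s hs x hx
    rcases le_total s SF.R0 with hR | hR
    · rw [LS_e0_zero hR, SF.chi_of_le hR, SF.chi1_of_le hR]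
      simp only [F2]
      ring
    · have e := S.eq2 s ⟨hR, hs.2.le⟩ x (J_subset_X0 hx)
      rw [← ev_f2 hR, ← ev_y h hR, ← ev_ys h hR, ← ev_z h hR, ← ev1_y h hR, ← ev_lam h hR,
        ← LS_ode (M.dom_ez (q := q1) ha haR.le (by linarith [one_lt_q1]) (q1_lt_nu1.trans nu1_lt_nu) 4)
          one_lt_q1.le (sub hs) hx] at e
      exact e
  · intro s hs x hx
    rcases le_or_gt s SF.R0 with hR | hR
    · rw [SF.chi_of_le hR, SF.chi1_of_le hR]
      norm_num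
    · obtain ⟨h1, h2⟩ := small_y h hR.le hs.2.le (J_subset_X0 hx)
      obtain ⟨c1, c2, c3, c4⟩ := chi_bounds hR.le hs.2.le
      have h3 : |SF.chi1 s * LS 0 (my S) s x| ≤ 12 * (1 / 1000) := by
        rw [abs_mul, abs_of_nonneg c3]
        exact mul_le_mul c4 h1 (abs_nonneg _) (by norm_num)
      have h4 : |SF.chi s * LS 0 (yd (my S) (mz S) (m2 S)) s x| ≤ 1 * (1 / 1000) := by
        rw [abs_mul, abs_of_nonneg c1]
        exact mul_le_mul c2 h2 (abs_nonneg _) (by norm_num)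
      have h5 := (abs_le.1 h3).1
      have h6 := (abs_le.1 h4).1
      linarith
  · intro s hs x hx
    have hs0 : 0 < s := ha.trans hs.1
    rcases le_or_gt s SF.R0 with hR | hR
    · rw [SF.chi_of_le hR]
      linarith
    · obtain ⟨h1, h2⟩ := small_y h hR.le hs.2.le (J_subset_X0 hx)
      obtain ⟨c1, c2, c3, c4⟩ := chi_bounds hR.le hs.2.le
      have h4 : |SF.chi s * LS 0 (my S) s x| ≤ 1 * (1 / 1000) := by
        rw [abs_mul, abs_of_nonneg c1]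
        exact mul_le_mul c2 h1 (abs_nonneg _) (by norm_num)
      have h6 := (abs_le.1 h4).1
      have hR1 : 1 < SF.R0 := by
        have := SN.rho_gt
        unfold SF.R0 SF.wd
        show 1 < SN.rho - 1 / 4
        linarith
      linarith

end

end SD
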