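import Pool.Agent.H47.SD.Ser

/-!
# MP_f4af34 (Schiffer in R^3), block DICTIONARY: operations on dominated mode functions
-/

set_option autoImplicit false
open Filter Topology Set

namespace SD

variable {f g : ℕ → ℝ → ℝ} {I I' : Set ℝ} {q : ℝ} {m : ℕ}

theorem Dom.add (hf : Dom f I q m) (hg : Dom g I q m) : Dom (fun k s => f k s + g k s) I q m := by
  obtain ⟨B, h1, h2⟩ := hf
  obtain ⟨C, h3, h4⟩ := hg
  refine ⟨fun k => B k + C k, fun k s hs => (abs_add_le _ _).trans (add_le_add (h1 k s hs) (h3 k s hs)), ?_⟩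
  refine (h2.add h4).congr fun k => ?_
  ring

theorem Dom.neg (hf : Dom f I q m) : Dom (fun k s => -f k s) I q m := by
  obtain ⟨B, h1, h2⟩ := hf
  exact ⟨B, fun k s hs => by rw [abs_neg]; exact h1 k s hs, h2⟩

theorem Dom.congr (hf : Dom f I q m) (h : ∀ k, ∀ s ∈ I, g k s = f k s) : Dom g I q m := by
  obtain ⟨B, h1, h2⟩ := hf
  exact ⟨B, fun k s hs => by rw [h k s hs]; exact h1 k s hs, h2⟩

theorem Dom.smul {c : ℝ → ℝ} {C : ℝ} (hc : ∀ s ∈ I, |c s| ≤ C) (hf : Dom f I q m) :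
    Dom (fun k s => c s * f k s) I q m := by
  obtain ⟨B, h1, h2⟩ := hf
  refine ⟨fun k => C * B k, fun k s hs => ?_, ?_⟩
  · rw [abs_mul]
    exact mul_le_mul (hc s hs) (h1 k s hs) (abs_nonneg _) ((abs_nonneg _).trans (hc s hs))
  · refine (h2.mul_left C).congr fun k => ?_
    ring

/-- multiplication by numbers of size `(k + 1) ^ n` -/
theorem Dom.kmul {a : ℕ → ℝ} {n : ℕ} (ha : ∀ k : ℕ, |a k| ≤ ((k : ℝ) + 1) ^ n) (hq : 0 ≤ q)
    (hf : Dom f I q (m + n)) : Dom (fun k s => a k * f k s) I q m := by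
  rcases I.eq_empty_or_nonempty with rfl | hI
  · exact ⟨fun _ => 0, fun k s hs => absurd hs (notMem_empty s), by simp⟩
  obtain ⟨B, h0, h1, h2⟩ := hf.nonneg hI
  refine ⟨fun k => ((k : ℝ) + 1) ^ n * B k, fun k s hs => ?_, ?_⟩
  · rw [abs_mul]
    exact mul_le_mul (ha k) (h1 k s hs) (abs_nonneg _) (by positivity)
  · refine h2.congr fun k => ?_
    rw [pow_add]
    ring

/-- the eigenvalues -/
theorem abs_lam_le (k : ℕ) : |(k : ℝ) * ((k : ℝ) + 1)| ≤ ((k : ℝ) + 1) ^ 2 := by
  have hk : (0 : ℝ) ≤ k := Nat.cast_nonneg k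
  rw [abs_of_nonneg (by positivity)]
  nlinarith

theorem Dom.lam (hq : 0 ≤ q) (hf : Dom f I q (m + 2)) :
    Dom (fun (k : ℕ) s => (k : ℝ) * ((k : ℝ) + 1) * f k s) I q m :=
  Dom.kmul abs_lam_le hq hf

theorem Dom.union (hq : 0 ≤ q) (hf : Dom f I q m) (hf' : Dom f I' q m) : Dom f (I ∪ I') q m := by
  rcases I.eq_empty_or_nonempty with rfl | hI
  · simpa using hf'
  rcases I'.eq_empty_or_nonempty with rfl | hI'
  · simpa using hf
  obtain ⟨B, h0, h1, h2⟩ := hf.nonneg hI
  obtain ⟨C, h3, h4, h5⟩ := hf'.nonneg hI'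
  refine ⟨fun k => B k + C k, fun k s hs => ?_, (h2.add h5).congr fun k => by ring⟩
  rcases hs with hs | hs
  · exact (h1 k s hs).trans (by linarith [h3 k])
  · exact (h4 k s hs).trans (by linarith [h0 k])

/-- finitely many modes only need to be bounded -/
theorem Dom.of_large {k0 : ℕ} (hb : ∀ k < k0, ∃ C, ∀ s ∈ I, |f k s| ≤ C)
    (h : Dom (fun k s => if k < k0 then 0 else f k s) I q m) (hq : 0 ≤ q) : Dom f I q m := by
  classical
  rcases I.eq_empty_or_nonempty with rfl | hI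
  · exact ⟨fun _ => 0, fun k s hs => absurd hs (notMem_empty s), by simp⟩
  obtain ⟨B, h0, h1, h2⟩ := h.nonneg hI
  choose! C hC using hb
  refine ⟨fun k => B k + (if k < k0 then C k else 0), fun k s hs => ?_, ?_⟩
  · have h3 := h1 k s hs
    by_cases hk : k < k0
    · have h4 := hC k hk s hs
      have h5 := h0 k
      simp only [hk, if_true]
      linarith
    · simp only [hk, if_false] at h3 ⊢
      linarith
  · have h3 : Summable fun k : ℕ => ((k : ℝ) + 1) ^ m * (q ^ k * (if k < k0 then C k else 0)) := by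
      refine summable_of_ne_finset_zero (s := Finset.range k0) fun k hk => ?_
      rw [Finset.mem_range] at hk
      rw [if_neg hk, mul_zero, mul_zero]
    refine (h2.add h3).congr fun k => ?_
    ring

/-- domination at a point gives summable values -/
theorem Dom.summable_abs (hf : Dom f I q m) (hq : 0 ≤ q) {s : ℝ} (hs : s ∈ I) :
    Summable fun k : ℕ => ((k : ℝ) + 1) ^ m * (q ^ k * |f k s|) := by
  obtain ⟨B, h0, h1, h2⟩ := hf.nonneg ⟨s, hs⟩
  refine Summable.of_nonneg_of_le (fun k => by positivity) (fun k => ?_) h2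
  exact mul_le_mul_of_nonneg_left (mul_le_mul_of_nonneg_left (h1 k s hs) (by positivity)) (by positivity)

end SD
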